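import Pool.Agent.H8.AV3.Stmts
import Mathlib.LinearAlgebra.Matrix.GeneralLinearGroup.Card

/-!
# Three-descent over `F(t)`: sizes of the groups `G3`
-/

set_option autoImplicit false

namespace Pool.AV3

open Polynomial Matrix Pool.AVR

namespace GRC

theorem card_le {T A : Type} (S : Set A) (hS : S.Finite) (f : T → A)
    (hf : Function.Injective f) (hm : ∀ t, f t ∈ S) : Nat.card T ≤ S.ncard := by
  rw [← Set.ncard_univ T, ← Set.ncard_image_of_injective Set.univ hf]
  exact Set.ncard_le_ncard (by rintro _ ⟨t, _, rfl⟩; exact hm t) hS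

section

variable {F : Type} [Field F]

/-- Polynomials of degree at most `m`. -/
abbrev P (F : Type) [Field F] (m : ℕ) : Type := Polynomial.degreeLT F (m + 1)

theorem P_deg {m : ℕ} (p : P F m) : (p : F[X]).natDegree ≤ m := by
  have h := Polynomial.mem_degreeLT.1 p.2
  by_cases h0 : (p : F[X]) = 0
  · simp [h0]
  · exact Nat.lt_succ_iff.1 ((Polynomial.natDegree_lt_iff_degree_lt h0).2 h)

theorem P_card [Finite F] (m : ℕ) : Nat.card (P F m) = Nat.card F ^ (m + 1) := by
  rw [Nat.card_congr (Polynomial.degreeLTEquiv F (m + 1)).toEquiv, Nat.card_fun, Nat.card_fin]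

theorem finite_deg [Finite F] (m : ℕ) : {p : F[X] | p.natDegree ≤ m}.Finite := by
  have h : {p : F[X] | p.natDegree ≤ m} ⊆ Set.range (fun p : P F m => (p : F[X])) := by
    intro p hp
    refine ⟨⟨p, Polynomial.mem_degreeLT.2 ?_⟩, rfl⟩
    refine lt_of_le_of_lt (Polynomial.natDegree_le_iff_degree_le.1 hp) ?_
    exact_mod_cast Nat.lt_succ_self m
  have : Finite (P F m) := Finite.of_equiv _ (Polynomial.degreeLTEquiv F (m + 1)).toEquiv.symm
  exact (Set.finite_range _).subset h

theorem G3_finite [Finite F] (α β : ℕ) :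
    (G3 (dv α β) : Set (Matrix (Fin 3) (Fin 3) F[X])).Finite := by
  have h : (G3 (dv α β) : Set (Matrix (Fin 3) (Fin 3) F[X])) ⊆
      {g | ∀ i, ∀ j, g i j ∈ {p : F[X] | p.natDegree ≤ α + β}} := by
    intro g hg i j
    rcases eq_or_ne (g i j) 0 with h0 | h0
    · simp [h0]
    · have h1 := hg.2 i j h0
      have h2 : dv α β j - dv α β i ≤ ((α + β : ℕ) : ℤ) := by
        fin_cases i <;> fin_cases j <;> simp [dv] <;> omega
      have h3 := h1.trans h2
      exact_mod_cast h3
  refine Set.Finite.subset ?_ h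
  have h4 := Set.Finite.pi' (fun _ : Fin 3 => Set.Finite.pi' (fun _ : Fin 3 =>
    finite_deg (F := F) (α + β)))
  exact h4

theorem C_mem {d : ℤ} (hd : 0 ≤ d) (a : F) : (C a : F[X]) ≠ 0 →
    ((C a : F[X]).natDegree : ℤ) ≤ d := by
  intro _
  simpa using hd

theorem zero_mem {d : ℤ} : (0 : F[X]) ≠ 0 → ((0 : F[X]).natDegree : ℤ) ≤ d := fun h =>
  absurd rfl h

theorem P_mem {m : ℕ} {d : ℤ} (hd : (m : ℤ) ≤ d) (p : P F m) : (p : F[X]) ≠ 0 →
    ((p : F[X]).natDegree : ℤ) ≤ d := by
  intro _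
  exact le_trans (by exact_mod_cast P_deg p) hd

theorem case0 [Finite F] : (Nat.card F ^ 3 - 1) * (Nat.card F ^ 3 - Nat.card F) *
    (Nat.card F ^ 3 - Nat.card F ^ 2) ≤
      (G3 (dv 0 0) : Set (Matrix (Fin 3) (Fin 3) F[X])).ncard := by
  have : Fintype F := Fintype.ofFinite F
  have hc : Nat.card (GL (Fin 3) F) = (Nat.card F ^ 3 - 1) * (Nat.card F ^ 3 - Nat.card F) *
      (Nat.card F ^ 3 - Nat.card F ^ 2) := by
    rw [Matrix.card_GL_field, Fin.prod_univ_three, ← Nat.card_eq_fintype_card]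
    simp
  rw [← hc]
  refine card_le _ (G3_finite 0 0) (fun g => (g : Matrix (Fin 3) (Fin 3) F).map C) ?_ ?_
  · intro g h hgh
    apply Units.ext
    ext i j
    have h1 := congrFun (congrFun hgh i) j
    simpa using h1
  · intro g
    refine ⟨?_, ?_⟩
    · have h1 : ((g : Matrix (Fin 3) (Fin 3) F).map C).det = C (g : Matrix (Fin 3) (Fin 3) F).det := by
        have := RingHom.map_det (C : F →+* F[X]) (g : Matrix (Fin 3) (Fin 3) F)
        rw [this]
        rfl
      rw [h1]
      exact (Matrix.isUnits_det_units g).map C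
    · intro i j
      rw [Matrix.map_apply]
      apply C_mem
      fin_cases i <;> fin_cases j <;> simp [dv]

theorem GL2_card [Finite F] : Nat.card (GL (Fin 2) F) =
    (Nat.card F ^ 2 - 1) * (Nat.card F ^ 2 - Nat.card F) := by
  have : Fintype F := Fintype.ofFinite F
  rw [Matrix.card_GL_field, Fin.prod_univ_two, ← Nat.card_eq_fintype_card]
  simp

theorem GL2_ext {g h : GL (Fin 2) F} (h00 : (g : Matrix (Fin 2) (Fin 2) F) 0 0 = h 0 0)
    (h01 : (g : Matrix (Fin 2) (Fin 2) F) 0 1 = h 0 1)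
    (h10 : (g : Matrix (Fin 2) (Fin 2) F) 1 0 = h 1 0)
    (h11 : (g : Matrix (Fin 2) (Fin 2) F) 1 1 = h 1 1) : g = h := by
  apply Units.ext
  ext i j
  fin_cases i <;> fin_cases j <;> assumption

theorem T_card [Finite F] (m : ℕ) : Nat.card (GL (Fin 2) F × Fˣ × P F m × P F m) =
    (Nat.card F ^ 2 - 1) * (Nat.card F ^ 2 - Nat.card F) *
      ((Nat.card F - 1) * Nat.card F ^ (2 * m + 2)) := by
  rw [Nat.card_prod, Nat.card_prod, Nat.card_prod, GL2_card, Nat.card_units, P_card]
  ring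

/-- The matrices for `d = (0, 0, m)`. -/
noncomputable def mA (m : ℕ) (t : GL (Fin 2) F × Fˣ × P F m × P F m) :
    Matrix (Fin 3) (Fin 3) F[X] :=
  !![C ((t.1 : Matrix (Fin 2) (Fin 2) F) 0 0), C ((t.1 : Matrix (Fin 2) (Fin 2) F) 0 1),
      (t.2.2.1 : F[X]);
    C ((t.1 : Matrix (Fin 2) (Fin 2) F) 1 0), C ((t.1 : Matrix (Fin 2) (Fin 2) F) 1 1),
      (t.2.2.2 : F[X]);
    0, 0, C (t.2.1 : F)]

/-- The matrices for `d = (0, m, m)`. -/
noncomputable def mB (m : ℕ) (t : GL (Fin 2) F × Fˣ × P F m × P F m) :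
    Matrix (Fin 3) (Fin 3) F[X] :=
  !![C (t.2.1 : F), (t.2.2.1 : F[X]), (t.2.2.2 : F[X]);
    0, C ((t.1 : Matrix (Fin 2) (Fin 2) F) 0 0), C ((t.1 : Matrix (Fin 2) (Fin 2) F) 0 1);
    0, C ((t.1 : Matrix (Fin 2) (Fin 2) F) 1 0), C ((t.1 : Matrix (Fin 2) (Fin 2) F) 1 1)]

theorem det2_unit (g : GL (Fin 2) F) : IsUnit ((g : Matrix (Fin 2) (Fin 2) F) 0 0 *
    (g : Matrix (Fin 2) (Fin 2) F) 1 1 - (g : Matrix (Fin 2) (Fin 2) F) 0 1 *
    (g : Matrix (Fin 2) (Fin 2) F) 1 0) := by
  have h := Matrix.isUnits_det_units g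
  rwa [Matrix.det_fin_two] at h

theorem caseA [Finite F] (m : ℕ) (_ : 1 ≤ m) :
    (Nat.card F ^ 2 - 1) * (Nat.card F ^ 2 - Nat.card F) *
      ((Nat.card F - 1) * Nat.card F ^ (2 * m + 2)) ≤
        (G3 (dv 0 m) : Set (Matrix (Fin 3) (Fin 3) F[X])).ncard := by
  rw [← T_card]
  refine card_le _ (G3_finite 0 m) (mA m) ?_ ?_
  · rintro ⟨g, u, p, r⟩ ⟨g', u', p', r'⟩ h
    have e : ∀ i j, mA m (g, u, p, r) i j = mA m (g', u', p', r') i j := fun i j => by rw [h]
    have h00 := e 0 0
    have h01 := e 0 1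
    have h02 := e 0 2
    have h10 := e 1 0
    have h11 := e 1 1
    have h12 := e 1 2
    have h22 := e 2 2
    simp only [mA, Matrix.of_apply, Matrix.cons_val] at h00 h01 h02 h10 h11 h12 h22
    have hg : g = g' := GL2_ext (C_injective h00) (C_injective h01) (C_injective h10)
      (C_injective h11)
    have hu : u = u' := Units.ext (C_injective h22)
    have hp : p = p' := Subtype.ext h02
    have hr : r = r' := Subtype.ext h12
    rw [hg, hu, hp, hr]
  · rintro ⟨g, u, p, r⟩
    refine ⟨?_, ?_⟩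
    · have h1 : (mA m (g, u, p, r)).det = C (((g : Matrix (Fin 2) (Fin 2) F) 0 0 *
          (g : Matrix (Fin 2) (Fin 2) F) 1 1 - (g : Matrix (Fin 2) (Fin 2) F) 0 1 *
          (g : Matrix (Fin 2) (Fin 2) F) 1 0) * (u : F)) := by
        rw [Matrix.det_fin_three]
        simp only [mA, Matrix.of_apply, Matrix.cons_val, C_mul, C_sub]
        ring
      rw [h1]
      exact ((det2_unit g).mul u.isUnit).map C
    · intro i j
      fin_cases i <;> fin_cases j
      · exact C_mem (by simp [dv]) _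
      · exact C_mem (by simp [dv]) _
      · exact P_mem (by simp [dv]) p
      · exact C_mem (by simp [dv]) _
      · exact C_mem (by simp [dv]) _
      · exact P_mem (by simp [dv]) r
      · exact zero_mem
      · exact zero_mem
      · exact C_mem (by simp [dv]) _

theorem caseB [Finite F] (m : ℕ) (_ : 1 ≤ m) :
    (Nat.card F ^ 2 - 1) * (Nat.card F ^ 2 - Nat.card F) *
      ((Nat.card F - 1) * Nat.card F ^ (2 * m + 2)) ≤
        (G3 (dv m 0) : Set (Matrix (Fin 3) (Fin 3) F[X])).ncard := by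
  rw [← T_card]
  refine card_le _ (G3_finite m 0) (mB m) ?_ ?_
  · rintro ⟨g, u, p, r⟩ ⟨g', u', p', r'⟩ h
    have e : ∀ i j, mB m (g, u, p, r) i j = mB m (g', u', p', r') i j := fun i j => by rw [h]
    have h00 := e 0 0
    have h01 := e 0 1
    have h02 := e 0 2
    have h11 := e 1 1
    have h12 := e 1 2
    have h21 := e 2 1
    have h22 := e 2 2
    simp only [mB, Matrix.of_apply, Matrix.cons_val] at h00 h01 h02 h11 h12 h21 h22
    have hg : g = g' := GL2_ext (C_injective h11) (C_injective h12) (C_injective h21)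
      (C_injective h22)
    have hu : u = u' := Units.ext (C_injective h00)
    have hp : p = p' := Subtype.ext h01
    have hr : r = r' := Subtype.ext h02
    rw [hg, hu, hp, hr]
  · rintro ⟨g, u, p, r⟩
    refine ⟨?_, ?_⟩
    · have h1 : (mB m (g, u, p, r)).det = C (((g : Matrix (Fin 2) (Fin 2) F) 0 0 *
          (g : Matrix (Fin 2) (Fin 2) F) 1 1 - (g : Matrix (Fin 2) (Fin 2) F) 0 1 *
          (g : Matrix (Fin 2) (Fin 2) F) 1 0) * (u : F)) := by
        rw [Matrix.det_fin_three]
        simp only [mB, Matrix.of_apply, Matrix.cons_val, C_mul, C_sub]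
        ring
      rw [h1]
      exact ((det2_unit g).mul u.isUnit).map C
    · intro i j
      fin_cases i <;> fin_cases j
      · exact C_mem (by simp [dv]) _
      · exact P_mem (by simp [dv]) p
      · exact P_mem (by simp [dv]) r
      · exact zero_mem
      · exact C_mem (by simp [dv]) _
      · exact C_mem (by simp [dv]) _
      · exact zero_mem
      · exact C_mem (by simp [dv]) _
      · exact C_mem (by simp [dv]) _

/-- The matrices for `d = (0, α, α + β)`. -/
noncomputable def mC (α β : ℕ) (t : (Fˣ × Fˣ × Fˣ) × P F α × P F β × P F (α + β)) :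
    Matrix (Fin 3) (Fin 3) F[X] :=
  !![C (t.1.1 : F), (t.2.1 : F[X]), (t.2.2.2 : F[X]);
    0, C (t.1.2.1 : F), (t.2.2.1 : F[X]);
    0, 0, C (t.1.2.2 : F)]

theorem TC_card [Finite F] (α β : ℕ) :
    Nat.card ((Fˣ × Fˣ × Fˣ) × P F α × P F β × P F (α + β)) =
      (Nat.card F - 1) ^ 3 * Nat.card F ^ (2 * α + 2 * β + 3) := by
  rw [Nat.card_prod, Nat.card_prod, Nat.card_prod, Nat.card_prod, Nat.card_prod, Nat.card_units,
    P_card, P_card, P_card]
  ring

theorem caseC [Finite F] (α β : ℕ) :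
    (Nat.card F - 1) ^ 3 * Nat.card F ^ (2 * α + 2 * β + 3) ≤
      (G3 (dv α β) : Set (Matrix (Fin 3) (Fin 3) F[X])).ncard := by
  rw [← TC_card]
  refine card_le _ (G3_finite α β) (mC α β) ?_ ?_
  · rintro ⟨⟨u, v, w⟩, p, r, s⟩ ⟨⟨u', v', w'⟩, p', r', s'⟩ h
    have e : ∀ i j, mC α β ((u, v, w), p, r, s) i j = mC α β ((u', v', w'), p', r', s') i j :=
      fun i j => by rw [h]
    have h00 := e 0 0
    have h01 := e 0 1
    have h02 := e 0 2
    have h11 := e 1 1
    have h12 := e 1 2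
    have h22 := e 2 2
    simp only [mC, Matrix.of_apply, Matrix.cons_val] at h00 h01 h02 h11 h12 h22
    have hu : u = u' := Units.ext (C_injective h00)
    have hv : v = v' := Units.ext (C_injective h11)
    have hw : w = w' := Units.ext (C_injective h22)
    have hp : p = p' := Subtype.ext h01
    have hr : r = r' := Subtype.ext h12
    have hs : s = s' := Subtype.ext h02
    rw [hu, hv, hw, hp, hr, hs]
  · rintro ⟨⟨u, v, w⟩, p, r, s⟩
    refine ⟨?_, ?_⟩
    · have h1 : (mC α β ((u, v, w), p, r, s)).det = C ((u : F) * (v : F) * (w : F)) := by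
        rw [Matrix.det_fin_three]
        simp only [mC, Matrix.of_apply, Matrix.cons_val, C_mul]
        ring
      rw [h1]
      exact ((u.isUnit.mul v.isUnit).mul w.isUnit).map C
    · intro i j
      fin_cases i <;> fin_cases j
      · exact C_mem (by simp [dv]) _
      · exact P_mem (by simp [dv]) p
      · exact P_mem (by simp [dv]) s
      · exact zero_mem
      · exact C_mem (by simp [dv]) _
      · exact P_mem (by simp [dv]) r
      · exact zero_mem
      · exact zero_mem
      · exact C_mem (by simp [dv]) _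

end

end GRC

theorem GRC_thm : GRCStmt := by
  intro F _ _
  exact ⟨GRC.G3_finite, GRC.case0, GRC.caseA, GRC.caseB, fun α β _ _ => GRC.caseC α β⟩

end Pool.AV3
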